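import Pool.Agent.H503R3.FR.Stmts

set_option autoImplicit false

open MvPolynomial

namespace H503R3.FR.G3h347

theorem evq_r0 (k : Type) [Field k] (q : k) : evq k q (r k 0) = q ^ 2 := by
  simp [evq, r, gen]

theorem evq_rpos (k : Type) [Field k] (q : k) (i : Fin 6) (hi : i ≠ 0) :
    evq k q (r k i) = 0 := by
  fin_cases i
  · exact absurd rfl hi
  all_goals simp [evq, r, gen, w]

theorem two_zero (k : Type) [Field k] [CharP k 2] : (2 : R k) = 0 := by
  have h : (algebraMap k (R k)) (2 : k) = 0 := by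
    rw [show (2 : k) = 0 from CharTwo.two_eq_zero, map_zero]
  rw [map_ofNat] at h
  exact h

theorem dtwo_zero (k : Type) [Field k] [CharP k 2] : (2 : D k) = 0 := by
  have h : (algebraMap k (D k)) (2 : k) = 0 := by
    rw [show (2 : k) = 0 from CharTwo.two_eq_zero, map_zero]
  rw [map_ofNat] at h
  exact h

theorem r2_sq (k : Type) [Field k] : r k 2 ^ 2 = r k 1 * r k 3 := by
  apply Subtype.ext
  show (X 1 ^ 2 * X 2 ^ 2 : D k) ^ 2 = X 1 ^ 4 * X 2 ^ 4
  ring

theorem r4_sq (k : Type) [Field k] [CharP k 2] :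
    r k 4 ^ 2 = r k 1 * (r k 1 * r k 2 + r k 0 * r k 2 * r k 3) := by
  apply Subtype.ext
  show (X 1 ^ 2 * w k : D k) ^ 2 = X 1 ^ 4 * (X 1 ^ 4 * (X 1 ^ 2 * X 2 ^ 2) +
    X 0 ^ 2 * (X 1 ^ 2 * X 2 ^ 2) * X 2 ^ 4)
  have h := dtwo_zero k
  unfold w
  linear_combination (X 1 ^ 4 * (X 1 ^ 3 * X 2) * (X 0 * X 1 * X 2 ^ 3)) * h

theorem r5_sq (k : Type) [Field k] [CharP k 2] :
    r k 5 ^ 2 = r k 3 * (r k 1 * r k 2 + r k 0 * r k 2 * r k 3) := by
  apply Subtype.ext
  show (X 2 ^ 2 * w k : D k) ^ 2 = X 2 ^ 4 * (X 1 ^ 4 * (X 1 ^ 2 * X 2 ^ 2) +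
    X 0 ^ 2 * (X 1 ^ 2 * X 2 ^ 2) * X 2 ^ 4)
  have h := dtwo_zero k
  unfold w
  linear_combination (X 2 ^ 4 * (X 1 ^ 3 * X 2) * (X 0 * X 1 * X 2 ^ 3)) * h

theorem taskG3 : TaskG3 := by
  intro k _ _ a q ha1 hq
  have h2k : (2 : k) = 0 := CharTwo.two_eq_zero
  constructor
  · unfold hyp
    rw [map_add, map_sum, Fin.sum_univ_succ]
    rw [Finset.sum_eq_zero (fun i _ => by
      rw [map_mul, evq_rpos k q i.succ (Fin.succ_ne_zero i), mul_zero])]
    rw [map_mul, evq_r0, AlgHom.commutes, AlgHom.commutes]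
    show a 0 + (a 1 * q ^ 2 + 0) = 0
    rw [← hq]
    linear_combination (q ^ 2 * a 1) * h2k
  · intro u hu
    set J : Ideal (R k) := Ideal.span {r k 1, r k 3, hyp k a} with hJ
    have m1 : r k 1 ∈ J := Ideal.subset_span (by simp)
    have m3 : r k 3 ∈ J := Ideal.subset_span (by simp)
    have mh : hyp k a ∈ J := Ideal.subset_span (by simp)
    have n1 : r k 1 ∈ J.radical := Ideal.le_radical m1
    have n3 : r k 3 ∈ J.radical := Ideal.le_radical m3
    have nh : hyp k a ∈ J.radical := Ideal.le_radical mh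
    have n2 : r k 2 ∈ J.radical := ⟨2, by rw [r2_sq]; exact J.mul_mem_right _ m1⟩
    have n4 : r k 4 ∈ J.radical := ⟨2, by rw [r4_sq]; exact J.mul_mem_right _ m1⟩
    have n5 : r k 5 ∈ J.radical := ⟨2, by rw [r5_sq]; exact J.mul_mem_right _ m3⟩
    have n0 : r k 0 - algebraMap k (R k) (q ^ 2) ∈ J.radical := by
      have e1 : hyp k a = algebraMap k (R k) (a 0) + (algebraMap k (R k) (a 1) * r k 0 +
          (algebraMap k (R k) (a 2) * r k 1 + (algebraMap k (R k) (a 3) * r k 2 +
          (algebraMap k (R k) (a 4) * r k 3 + (algebraMap k (R k) (a 5) * r k 4 +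
          algebraMap k (R k) (a 6) * r k 5))))) := by
        unfold hyp
        rw [Fin.sum_univ_six]
        show algebraMap k (R k) (a 0) + (algebraMap k (R k) (a 1) * r k 0 +
          algebraMap k (R k) (a 2) * r k 1 + algebraMap k (R k) (a 3) * r k 2 +
          algebraMap k (R k) (a 4) * r k 3 + algebraMap k (R k) (a 5) * r k 4 +
          algebraMap k (R k) (a 6) * r k 5) = _
        ring
      have e2 : algebraMap k (R k) (a 1) * (r k 0 - algebraMap k (R k) (q ^ 2)) =
          hyp k a - (algebraMap k (R k) (a 2) * r k 1 + (algebraMap k (R k) (a 3) * r k 2 +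
          (algebraMap k (R k) (a 4) * r k 3 + (algebraMap k (R k) (a 5) * r k 4 +
          algebraMap k (R k) (a 6) * r k 5)))) := by
        rw [e1, ← hq, map_mul]
        have h2 := two_zero k
        linear_combination (-(algebraMap k (R k) (q ^ 2) * algebraMap k (R k) (a 1))) * h2
      have e3 : algebraMap k (R k) (a 1) * (r k 0 - algebraMap k (R k) (q ^ 2)) ∈
          J.radical := by
        rw [e2]
        exact J.radical.sub_mem nh (J.radical.add_mem (J.radical.mul_mem_left _ n1)
          (J.radical.add_mem (J.radical.mul_mem_left _ n2)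
          (J.radical.add_mem (J.radical.mul_mem_left _ n3)
          (J.radical.add_mem (J.radical.mul_mem_left _ n4) (J.radical.mul_mem_left _ n5)))))
      have e4 : r k 0 - algebraMap k (R k) (q ^ 2) = algebraMap k (R k) ((a 1)⁻¹) *
          (algebraMap k (R k) (a 1) * (r k 0 - algebraMap k (R k) (q ^ 2))) := by
        rw [← mul_assoc, ← map_mul, inv_mul_cancel₀ ha1, map_one, one_mul]
      rw [e4]
      exact J.radical.mul_mem_left _ e3
    have key : (Ideal.Quotient.mkₐ k J.radical : R k →ₐ[k] R k ⧸ J.radical) =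
        (Algebra.ofId k (R k ⧸ J.radical)).comp (evq k q) := by
      apply AlgHom.adjoin_ext
      rintro x ⟨i, rfl⟩
      show Ideal.Quotient.mkₐ k J.radical (r k i) =
        algebraMap k (R k ⧸ J.radical) (evq k q (r k i))
      by_cases hi : i = 0
      · subst hi
        rw [evq_r0]
        have h5 : Ideal.Quotient.mk J.radical (r k 0) =
            Ideal.Quotient.mk J.radical (algebraMap k (R k) (q ^ 2)) :=
          (Ideal.Quotient.mk_eq_mk_iff_sub_mem _ _).2 n0
        exact h5
      · rw [evq_rpos k q i hi, map_zero]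
        have h6 : r k i ∈ J.radical := by
          fin_cases i
          · exact absurd rfl hi
          · exact n1
          · exact n2
          · exact n3
          · exact n4
          · exact n5
        exact Ideal.Quotient.eq_zero_iff_mem.2 h6
    have h7 : Ideal.Quotient.mkₐ k J.radical u =
        algebraMap k (R k ⧸ J.radical) (evq k q u) := congrArg (fun f => f u) key
    rw [hu, map_zero] at h7
    have h8 : u ∈ J.radical := Ideal.Quotient.eq_zero_iff_mem.1 h7
    exact h8

end H503R3.FR.G3h347
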